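import Mathlib

/-!
The points of the Hilbert scheme `Hilb_d(A^3)` over a field `k` with their Zariski topology, through
the description as commuting matrices with a cyclic vector modulo `GL_d`.
-/

set_option autoImplicit false

namespace Pool.Agent.Lib.MP_851c4e_ag

open MvPolynomial Matrix

/-- The polynomial ring `S = k[x_1, x_2, x_3]`. -/
abbrev PS (k : Type) [Field k] : Type := MvPolynomial (Fin 3) k

/-- The Zariski topology on the affine space `k^σ`. -/
@[reducible] def zariski (k σ : Type) [Field k] : TopologicalSpace (σ → k) :=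
  TopologicalSpace.generateFrom {U | ∃ f : MvPolynomial σ k, U = {x | eval x f ≠ 0}}

/-- The linear map `F ↦ F(A_1, A_2, A_3) v`. -/
noncomputable def act {k ι : Type} [Field k] [Fintype ι] [DecidableEq ι]
    (A : Fin 3 → Matrix ι ι k) (v : ι → k) : PS k →ₗ[k] (ι → k) :=
  (basisMonomials (Fin 3) k).constr k fun m => (A 0 ^ m 0 * A 1 ^ m 1 * A 2 ^ m 2) *ᵥ v

lemma act_monomial {k ι : Type} [Field k] [Fintype ι] [DecidableEq ι]
    (A : Fin 3 → Matrix ι ι k) (v : ι → k) (m : Fin 3 →₀ ℕ) :
    act A v (monomial m 1) = (A 0 ^ m 0 * A 1 ^ m 1 * A 2 ^ m 2) *ᵥ v := by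
  exact (basisMonomials (Fin 3) k).constr_basis k _ m

lemma act_X_mul {k ι : Type} [Field k] [Fintype ι] [DecidableEq ι] {A : Fin 3 → Matrix ι ι k}
    (h : ∀ i j, Commute (A i) (A j)) (v : ι → k) (i : Fin 3) (F : PS k) :
    act A v (X i * F) = A i *ᵥ act A v F := by
  have : act A v ∘ₗ LinearMap.mulLeft k (X i) = Matrix.toLin' (A i) ∘ₗ act A v := by
    refine (basisMonomials (Fin 3) k).ext fun m => ?_
    simp only [LinearMap.comp_apply, LinearMap.mulLeft_apply, coe_basisMonomials,
      Matrix.toLin'_apply]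
    rw [X, monomial_mul, one_mul, act_monomial, act_monomial, Matrix.mulVec_mulVec]
    congr 1
    fin_cases i
    · simp [pow_add, mul_assoc]
    · simp [pow_add, ← mul_assoc, ((h 1 0).pow_right _).eq]
    · simp [pow_add, ← mul_assoc, ((h 2 0).pow_right _).eq]
      rw [mul_assoc (A 0 ^ m 0) (A 2), ((h 2 1).pow_right _).eq]
      simp only [mul_assoc]
  exact LinearMap.congr_fun this F

lemma act_mul_eq_zero {k ι : Type} [Field k] [Fintype ι] [DecidableEq ι]
    {A : Fin 3 → Matrix ι ι k} (h : ∀ i j, Commute (A i) (A j)) (v : ι → k) (G : PS k) :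
    ∀ F : PS k, act A v F = 0 → act A v (G * F) = 0 := by
  induction G using MvPolynomial.induction_on with
  | C a => intro F hF; rw [← smul_eq_C_mul, map_smul, hF, smul_zero]
  | add p q hp hq => intro F hF; rw [add_mul, map_add, hp F hF, hq F hF, add_zero]
  | mul_X p i hp => intro F hF; rw [mul_assoc]; exact hp _ (by rw [act_X_mul h, hF, mulVec_zero])

/-- Coordinates of three `d × d` matrices and a vector. -/
abbrev Idx (d : ℕ) : Type := (Fin 3 × Fin d × Fin d) ⊕ Fin d

/-- The matrices of a point of `k^(Idx d)`. -/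
def matOf {k : Type} {d : ℕ} (ω : Idx d → k) (i : Fin 3) : Matrix (Fin d) (Fin d) k :=
  Matrix.of fun a b => ω (Sum.inl (i, a, b))

/-- The vector of a point of `k^(Idx d)`. -/
def vecOf {k : Type} {d : ℕ} (ω : Idx d → k) : Fin d → k := fun a => ω (Sum.inr a)

/-- Commuting matrices with a cyclic vector. -/
def IsStable {k : Type} [Field k] {d : ℕ} (ω : Idx d → k) : Prop :=
  (∀ i j, Commute (matOf ω i) (matOf ω j)) ∧ Function.Surjective (act (matOf ω) (vecOf ω))

/-- The points of `Hilb_d(A^3)`: ideals of colength `d`. -/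
structure Hilb (k : Type) [Field k] (d : ℕ) where
  /-- the ideal -/
  ideal : Ideal (PS k)
  finite : Module.Finite k (PS k ⧸ ideal)
  colength : Module.finrank k (PS k ⧸ ideal) = d

/-- The ideal `{F | F(A) v = 0}`. -/
def idealOf {k : Type} [Field k] {d : ℕ} (ω : {ω : Idx d → k // IsStable ω}) : Ideal (PS k) where
  carrier := {F | act (matOf ω.1) (vecOf ω.1) F = 0}
  add_mem' := fun {a b} ha hb => by
    simp only [Set.mem_ofPred_eq] at ha hb ⊢; rw [map_add, ha, hb, add_zero]
  zero_mem' := map_zero _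
  smul_mem' := fun G F hF => act_mul_eq_zero ω.2.1 _ G F hF

/-- The quotient by `idealOf ω` is `k^d`. -/
noncomputable def quotEquiv {k : Type} [Field k] {d : ℕ} (ω : {ω : Idx d → k // IsStable ω}) :
    (PS k ⧸ idealOf ω) ≃ₗ[k] (Fin d → k) :=
  (Submodule.Quotient.restrictScalarsEquiv k (idealOf ω)).symm.trans
    ((act (matOf ω.1) (vecOf ω.1)).quotKerEquivOfSurjective ω.2.2)

/-- The quotient map from stable data to the Hilbert scheme (a `GL_d`-torsor). -/
noncomputable def toHilb {k : Type} [Field k] {d : ℕ} (ω : {ω : Idx d → k // IsStable ω}) :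
    Hilb k d :=
  ⟨idealOf ω, Module.Finite.equiv (quotEquiv ω).symm, by rw [(quotEquiv ω).finrank_eq]; simp⟩

/-- The Zariski topology on the points of `Hilb_d(A^3)`: the quotient topology of the Zariski
topology on stable data. -/
noncomputable instance (k : Type) [Field k] (d : ℕ) : TopologicalSpace (Hilb k d) :=
  TopologicalSpace.coinduced toHilb
    (TopologicalSpace.induced Subtype.val (zariski k (Idx d)))

/-- The Hilbert function `H(i) = dim (m^i + I) / (m^(i+1) + I)`, `m = (x_1, x_2, x_3)`. -/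
noncomputable def hilbFun {k : Type} [Field k] (I : Ideal (PS k)) (i : ℕ) : ℕ :=
  Module.finrank k (PS k ⧸ (idealOfVars (Fin 3) k ^ (i + 1) ⊔ I)) -
    Module.finrank k (PS k ⧸ (idealOfVars (Fin 3) k ^ i ⊔ I))

/-- The locus of algebras supported at the origin with Hilbert function
`(1, 3, 6, 10, 15, 21, 28, 12)`. -/
def VC0 (k : Type) [Field k] : Set (Hilb k 96) :=
  {I | I.ideal.radical = idealOfVars (Fin 3) k ∧
    ∀ i, hilbFun I.ideal i = if i ≤ 6 then (i + 2).choose 2 else if i = 7 then 12 else 0}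

/-- The very compressed locus: translates of members of `VC0` to arbitrary points `q`. -/
def VC (k : Type) [Field k] : Set (Hilb k 96) :=
  {J | ∃ I ∈ VC0 k, ∃ q : Fin 3 → k,
    J.ideal = I.ideal.comap (aeval (fun i => X i + C (q i)) : PS k →ₐ[k] PS k)}

end Pool.Agent.Lib.MP_851c4e_ag
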