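import Mathlib
import Pool.Agent.Lib.MP_851c4e_ag.Defs

/-!
An explicit family of commuting matrices deforming every very compressed algebra of length 96.
-/

set_option autoImplicit false

namespace Pool.Agent.Lib.MP_851c4e_ag

open MvPolynomial Matrix
open Finsupp (degree degree_eq_sum)

/-- exponent vectors -/
abbrev Mon : Type := Fin 3 →₀ ℕ

/-- exponent vectors of degree `n` -/
noncomputable def MD (n : ℕ) : Finset Mon := Finset.univ.finsuppAntidiag n

lemma mem_MD {n : ℕ} {m : Mon} : m ∈ MD n ↔ degree m = n := by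
  simp [MD, degree_eq_sum]

lemma card_MD (n : ℕ) : (MD n).card = (n + 2).choose n := by
  rw [MD, Finset.card_finsuppAntidiag_nat_eq_choose]
  simp [add_comm 3 n]

/-- exponent vectors of degree at most 6 -/
noncomputable def Bf : Finset Mon := (Finset.range 7).biUnion MD

lemma mem_Bf {m : Mon} : m ∈ Bf ↔ degree m ≤ 6 := by
  simp [Bf, mem_MD, Nat.lt_succ_iff]

lemma card_Bf : Bf.card = 84 := by
  rw [Bf, Finset.card_biUnion]
  · simp only [card_MD]; decide
  · intro a _ b _ hab
    exact Finset.disjoint_left.2 fun m h1 h2 => hab ((mem_MD.1 h1).symm.trans (mem_MD.1 h2))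

/-- basis of the algebras of the family -/
abbrev Io : Type := Bf ⊕ Fin 12

lemma card_Io : Fintype.card Io = 96 := by simp [card_Bf]

/-- parameters -/
inductive Par : Type
  | f (m : Mon) | al (m : Mon) | be (m : Mon) | q0 (a : Fin 12) (m : Mon)
  | rr (m : Mon) (a : Fin 12) | c | q (i : Fin 3)

variable {R : Type} [CommRing R] (t : Par → R)

/-- the value of a functional on `x_l f` -/
noncomputable def ap (φ : Mon → R) (l : Fin 3) : R := ∑ m ∈ MD 6, t (.f m) * φ (m + Finsupp.single l 1)

/-- the determinant -/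
noncomputable def DD : R :=
  ap t (fun m => t (.al m)) 0 * ap t (fun m => t (.be m)) 1 -
    ap t (fun m => t (.al m)) 1 * ap t (fun m => t (.be m)) 0

/-- the quotient map on forms of degree 7, killing `x f` and `y f` -/
noncomputable def Qm (a : Fin 12) (m : Mon) : R :=
  DD t * t (.q0 a m) -
    ap t (fun m => t (.q0 a m)) 0 * (ap t (fun m => t (.be m)) 1 * t (.al m) -
      ap t (fun m => t (.al m)) 1 * t (.be m)) -
    ap t (fun m => t (.q0 a m)) 1 * (ap t (fun m => t (.al m)) 0 * t (.be m) -
      ap t (fun m => t (.be m)) 0 * t (.al m))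

lemma ap_lin (φ ψ χ : Mon → R) (x y z u w u' w' : R) (l : Fin 3) :
    ap t (fun m => x * φ m - y * (u * ψ m - w * χ m) - z * (u' * χ m - w' * ψ m)) l =
      x * ap t φ l - y * (u * ap t ψ l - w * ap t χ l) - z * (u' * ap t χ l - w' * ap t ψ l) := by
  simp only [ap, Finset.mul_sum, ← Finset.sum_sub_distrib]
  exact Finset.sum_congr rfl fun m _ => by ring

lemma ap_Qm (a : Fin 12) {l : Fin 3} (hl : l ≠ 2) : ap t (Qm t a) l = 0 := by
  have := ap_lin t (fun m => t (.q0 a m)) (fun m => t (.al m)) (fun m => t (.be m)) (DD t)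
    (ap t (fun m => t (.q0 a m)) 0) (ap t (fun m => t (.q0 a m)) 1) (ap t (fun m => t (.be m)) 1)
    (ap t (fun m => t (.al m)) 1) (ap t (fun m => t (.al m)) 0) (ap t (fun m => t (.be m)) 0) l
  refine this.trans ?_
  fin_cases l
  · simp only [DD, Fin.zero_eta]; ring
  · simp only [DD, Fin.mk_one]; ring
  · exact (hl rfl).elim

open Classical in
/-- the class of a monomial of degree at most 7 -/
noncomputable def vec (m : Mon) : Io → R :=
  Sum.elim (fun b => if b.1 = m then 1 else
      if m = Finsupp.single 2 7 ∧ degree b.1 = 6 then -(t .c * t (.f b.1)) else 0)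
    fun a => if degree m = 7 then Qm t a m else 0

/-- the multiplication matrices -/
noncomputable def MM (l : Fin 3) : Matrix Io Io R :=
  Matrix.of fun i j => Sum.elim (fun b => vec t (b.1 + Finsupp.single l 1) i) (fun _ => 0) j

lemma MM_mulVec (l : Fin 3) (u : Io → R) :
    MM t l *ᵥ u = ∑ b : Bf, u (Sum.inl b) • vec t (b.1 + Finsupp.single l 1) := by
  ext i
  simp [MM, Matrix.mulVec, dotProduct, Finset.sum_apply, mul_comm]

lemma vec_low {m : Mon} (hm : degree m ≤ 6) :
    vec t m = Pi.single (Sum.inl ⟨m, mem_Bf.2 hm⟩) 1 := by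
  have h7 : m ≠ Finsupp.single 2 7 := by rintro rfl; simp at hm
  ext (b | a)
  · simp [vec, h7, Pi.single_apply, Subtype.ext_iff]
  · have : degree m ≠ 7 := by omega
    simp [vec, this]

lemma vec_high {m : Mon} (hm : 8 ≤ degree m) : vec t m = 0 := by
  have h7 : m ≠ Finsupp.single 2 7 := by rintro rfl; simp at hm
  ext (b | a)
  · have : b.1 ≠ m := by rintro rfl; have := mem_Bf.1 b.2; omega
    simp [vec, h7, this]
  · have : degree m ≠ 7 := by omega
    simp [vec, this]

lemma MM_low (l : Fin 3) {m : Mon} (hm : degree m ≤ 6) :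
    MM t l *ᵥ vec t m = vec t (m + Finsupp.single l 1) := by
  rw [MM_mulVec, vec_low t hm, Finset.sum_eq_single ⟨m, mem_Bf.2 hm⟩]
  · simp
  · intro b _ hb; simp [hb]
  · simp

lemma MM_seven (l : Fin 3) {m : Mon} (hm : degree m = 7) :
    MM t l *ᵥ vec t m = if m = Finsupp.single 2 7 then
      -t .c • ∑ m' ∈ MD 6, t (.f m') • vec t (m' + Finsupp.single l 1) else 0 := by
  have hb : ∀ b : Bf, b.1 ≠ m := by rintro b rfl; have := mem_Bf.1 b.2; omega
  rw [MM_mulVec]
  split_ifs with h
  · have e : ∀ b : Bf, vec t m (Sum.inl b) • vec t (b.1 + Finsupp.single l 1) =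
        if degree b.1 = 6 then -t .c • t (.f b.1) • vec t (b.1 + Finsupp.single l 1) else 0 := by
      intro b
      have : vec t m (Sum.inl b) = if degree b.1 = 6 then -(t .c * t (.f b.1)) else 0 := by
        rw [vec, Sum.elim_inl, if_neg (hb b)]; simp [h]
      rw [this]
      split_ifs <;> simp [smul_smul]
    simp only [e]
    rw [Finset.sum_coe_sort Bf fun m' => if degree m' = 6 then
      -t .c • t (.f m') • vec t (m' + Finsupp.single l 1) else 0, ← Finset.sum_filter, Finset.smul_sum]
    refine Finset.sum_congr (Finset.ext fun m' => ?_) fun _ _ => rfl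
    simp only [Finset.mem_filter, mem_Bf, mem_MD]
    omega
  · simp [vec, hb, h]

lemma w_zero {l : Fin 3} (hl : l ≠ 2) :
    ∑ m' ∈ MD 6, t (.f m') • vec t (m' + Finsupp.single l 1) = 0 := by
  ext (b | a)
  · rw [Finset.sum_apply]
    refine Finset.sum_eq_zero fun m' hm' => ?_
    have h1 : b.1 ≠ m' + Finsupp.single l 1 := by
      intro e
      have := mem_Bf.1 b.2
      rw [e, map_add, mem_MD.1 hm'] at this
      simp at this
    have h2 : m' + Finsupp.single l 1 ≠ Finsupp.single 2 7 := by
      intro e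
      have := DFunLike.congr_fun e l
      simp [hl] at this
    simp [vec, h1, h2]
  · rw [Finset.sum_apply, Pi.zero_apply, ← ap_Qm t a hl]
    refine Finset.sum_congr rfl fun m' hm' => ?_
    simp [vec, mem_MD.1 hm']

lemma MM_comm (l l' : Fin 3) : Commute (MM t l) (MM t l') := by
  have key : ∀ l l' : Fin 3, l ≠ l' → ∀ m : Mon, degree m = 6 →
      MM t l *ᵥ vec t (m + Finsupp.single l' 1) = 0 := by
    intro l l' hl m hm
    rw [MM_seven t l (by simp [hm])]
    split_ifs with h
    · have : l' = 2 := by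
        by_contra hne
        have := DFunLike.congr_fun h l'
        simp [hne] at this
      rw [w_zero t (this ▸ hl), smul_zero]
    · rfl
  by_cases hl : l = l'
  · rw [hl]
  refine Matrix.toLin'.injective (LinearMap.ext fun u => ?_)
  simp only [Matrix.toLin'_apply, ← Matrix.mulVec_mulVec]
  rw [MM_mulVec t l' u, MM_mulVec t l u]
  simp only [Matrix.mulVec_sum, Matrix.mulVec_smul]
  refine Finset.sum_congr rfl fun b _ => ?_
  rcases (mem_Bf.1 b.2).eq_or_lt with h | h
  · rw [key l l' hl _ h, key l' l (Ne.symm hl) _ h]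
  · rw [MM_low t l (by simp; omega), MM_low t l' (by simp; omega), add_right_comm]

/-- identification of the basis with `Fin 96` -/
noncomputable def eI : Io ≃ Fin 96 := Fintype.equivFinOfCardEq card_Io

/-- the point of the affine space of matrices and vectors -/
noncomputable def Phi : Idx 96 → R :=
  Sum.elim (fun s => MM t s.1 (eI.symm s.2.1) (eI.symm s.2.2) +
    if s.2.1 = s.2.2 then t (.q s.1) else 0) fun a => vec t 0 (eI.symm a)

/-- the open condition -/
noncomputable def gdet : R :=
  Matrix.det (Matrix.of fun a a' : Fin 12 => ∑ m ∈ MD 7, Qm t a m * t (.rr m a'))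

variable {R' : Type} [CommRing R'] (φ : R →+* R')

lemma map_Qm (a : Fin 12) (m : Mon) : φ (Qm t a m) = Qm (fun s => φ (t s)) a m := by
  simp [Qm, DD, ap]

lemma map_vec (m : Mon) (i : Io) : φ (vec t m i) = vec (fun s => φ (t s)) m i := by
  rcases i with b | a <;> simp [vec, apply_ite φ, map_Qm]

lemma map_Phi (s : Idx 96) : φ (Phi t s) = Phi (fun s => φ (t s)) s := by
  rcases s with ⟨l, a, b⟩ | a
  · simp only [Phi, MM, Sum.elim_inl, map_add, apply_ite φ, map_zero, Matrix.of_apply]
    rcases eI.symm b with b' | b' <;> simp [map_vec]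
  · simp [Phi, map_vec]

lemma map_gdet : φ (gdet t) = gdet (fun s => φ (t s)) := by
  rw [gdet, RingHom.map_det, gdet]
  congr 1
  ext a a'
  simp [map_Qm]

end Pool.Agent.Lib.MP_851c4e_ag
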