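import Mathlib
import Pool.Agent.Lib.MP_851c4e_ag.Family

/-!
The very compressed locus in degree 96 lies in a larger irreducible family.
-/

set_option autoImplicit false

namespace Pool.Agent.Lib.MP_851c4e_ag

open MvPolynomial Matrix Topology
open Finsupp (degree degree_eq_sum)

variable {k : Type} [Field k]

lemma zar_open {σ : Type} (f : MvPolynomial σ k) : IsOpen[zariski k σ] {x | eval x f ≠ 0} :=
  TopologicalSpace.GenerateOpen.basic _ ⟨f, rfl⟩

lemma zar_continuous {π σ : Type} (F : (π → k) → σ → k) (P : σ → MvPolynomial π k)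
    (h : ∀ t s, F t s = eval t (P s)) : Continuous[zariski k π, zariski k σ] F := by
  let _ := zariski k π
  refine continuous_generateFrom_iff.2 ?_
  rintro _ ⟨f, rfl⟩
  convert zar_open (bind₁ P f) using 1
  ext t
  have : F t = fun s => eval t (P s) := funext (h t)
  have e : eval t (bind₁ P f) = eval (fun s => eval t (P s)) f := eval₂Hom_bind₁ _ _ _ _
  simp [this, e]

lemma zar_irred [Infinite k] (σ : Type) : @IsPreirreducible _ (zariski k σ) Set.univ := by
  have key : ∀ U : Set (σ → k), IsOpen[zariski k σ] U → U.Nonempty →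
      ∃ f : MvPolynomial σ k, f ≠ 0 ∧ ∀ x, eval x f ≠ 0 → x ∈ U := by
    intro U hU
    induction hU with
    | basic s hs =>
      obtain ⟨f, rfl⟩ := hs
      rintro ⟨x, hx⟩
      exact ⟨f, by rintro rfl; simp at hx, fun _ h => h⟩
    | univ => exact fun _ => ⟨1, one_ne_zero, fun _ _ => trivial⟩
    | inter s t _ _ hs ht =>
      intro hne
      obtain ⟨f, h1, h2⟩ := hs hne.left
      obtain ⟨g, h3, h4⟩ := ht hne.right
      refine ⟨f * g, mul_ne_zero h1 h3, fun x hx => ?_⟩
      rw [map_mul] at hx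
      exact ⟨h2 x (left_ne_zero_of_mul hx), h4 x (right_ne_zero_of_mul hx)⟩
    | sUnion S _ hS =>
      rintro ⟨x, s, hs, hx⟩
      obtain ⟨f, h1, h2⟩ := hS s hs ⟨x, hx⟩
      exact ⟨f, h1, fun y hy => ⟨s, hs, h2 y hy⟩⟩
  intro u v hu hv h1 h2
  obtain ⟨f, a1, a2⟩ := key u hu h1.right
  obtain ⟨g, b1, b2⟩ := key v hv h2.right
  by_contra hne
  refine mul_ne_zero a1 b1 (MvPolynomial.funext fun x => ?_)
  by_contra hx
  rw [map_mul, map_zero] at hx
  exact hne ⟨x, trivial, a2 x (left_ne_zero_of_mul hx), b2 x (right_ne_zero_of_mul hx)⟩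

section act

variable {ι : Type} [Fintype ι] [DecidableEq ι] {A : Fin 3 → Matrix ι ι k} {v : ι → k}

lemma act_one : act A v 1 = v := by simpa using act_monomial A v 0

lemma act_unique (h : ∀ i j, Commute (A i) (A j)) (ρ : PS k →ₗ[k] (ι → k)) (h1 : ρ 1 = v)
    (h2 : ∀ i F, ρ (X i * F) = A i *ᵥ ρ F) (F : PS k) : act A v F = ρ F := by
  induction F using MvPolynomial.induction_on with
  | C a => rw [← mul_one (C a), ← smul_eq_C_mul, map_smul, map_smul, act_one, h1]
  | add p q hp hq => rw [map_add, map_add, hp, hq]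
  | mul_X p i hp => rw [mul_comm, act_X_mul h, h2, hp]

lemma act_pow (h : ∀ i j, Commute (A i) (A j)) (l : k) (n : ℕ) (F : PS k) :
    act A v ((X 2 - C l) ^ n * F) = (A 2 - l • 1) ^ n *ᵥ act A v F := by
  induction n with
  | zero => simp
  | succ n ih =>
    rw [pow_succ', pow_succ', mul_assoc, sub_mul, map_sub, act_X_mul h, ← smul_eq_C_mul, map_smul,
      ih, ← Matrix.mulVec_mulVec, Matrix.sub_mulVec, Matrix.smul_mulVec, Matrix.one_mulVec]

lemma pow_eq_zero_iff_act (h : ∀ i j, Commute (A i) (A j)) (hs : Function.Surjective (act A v))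
    (l : k) (n : ℕ) : act A v ((X 2 - C l) ^ n) = 0 ↔ (A 2 - l • 1) ^ n = 0 := by
  constructor
  · intro h0
    refine Matrix.toLin'.injective (LinearMap.ext fun u => ?_)
    obtain ⟨F, rfl⟩ := hs u
    rw [Matrix.toLin'_apply, ← act_pow h, mul_comm, act_mul_eq_zero h _ _ _ h0]
    simp
  · intro h0
    rw [← mul_one ((X 2 - C l) ^ n), act_pow h, h0, Matrix.zero_mulVec]

end act

/-- the quotient map of the family before translation -/
noncomputable def rho0 (t : Par → k) : PS k →ₗ[k] (Io → k) := act (MM t) (vec t 0)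

lemma rho0_mon (t : Par → k) (m : Mon) (hm : degree m ≤ 7 ∨ t .c = 0) :
    rho0 t (monomial m 1) = vec t m := by
  generalize hn : degree m = n
  induction n generalizing m with
  | zero =>
    rw [Finsupp.degree_eq_zero_iff] at hn
    subst hn
    exact act_one
  | succ n ih =>
    have h0 : m ≠ 0 := by rintro rfl; simp at hn
    obtain ⟨l, hl⟩ := Finsupp.support_nonempty_iff.2 h0
    obtain ⟨m', rfl⟩ := le_iff_exists_add'.1
      (show Finsupp.single l 1 ≤ m by simp_all [Nat.one_le_iff_ne_zero])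
    have hd : degree m' = n := by simpa using hn
    have e : (monomial (m' + Finsupp.single l 1) 1 : PS k) = X l * monomial m' 1 := by
      rw [X, monomial_mul, one_mul, add_comm]
    rw [e, rho0, act_X_mul (MM_comm t), ← rho0, ih m' (hm.imp_left fun h => by omega) hd]
    by_cases h6 : degree m' ≤ 6
    · exact MM_low t l h6
    have hc : t .c = 0 := hm.resolve_left (by omega)
    rw [vec_high t (m := m' + _) (by omega)]
    by_cases h7 : degree m' = 7
    · rw [MM_seven t l h7, hc]; simp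
    · rw [vec_high t (by omega), Matrix.mulVec_zero]

lemma rho0_surj (t : Par → k) (h : gdet t ≠ 0) : Function.Surjective (rho0 t) := by
  classical
  have h1 : ∀ u : Io → k, (∀ a, u (Sum.inr a) = 0) → u ∈ LinearMap.range (rho0 t) := by
    intro u hu
    have : u = ∑ b : Bf, u (Sum.inl b) • (Pi.single (Sum.inl b) 1 : Io → k) := by
      ext (b | a)
      · simp [Finset.sum_apply, Pi.single_apply]
      · simp [Finset.sum_apply, hu]
    rw [this]
    refine Submodule.sum_mem _ fun b _ => Submodule.smul_mem _ _ ⟨monomial b.1 1, ?_⟩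
    rw [rho0_mon t _ (Or.inl (by have := mem_Bf.1 b.2; omega)), vec_low t (mem_Bf.1 b.2)]
  intro u
  obtain ⟨y, hy⟩ := Matrix.mulVec_surjective_iff_isUnit.2
    ((Matrix.isUnit_iff_isUnit_det _).2 (isUnit_iff_ne_zero.2 h)) fun a => u (Sum.inr a)
  let F : PS k := ∑ m ∈ MD 7, (∑ a', t (.rr m a') * y a') • monomial m 1
  have h2 : ∀ a, rho0 t F (Sum.inr a) = u (Sum.inr a) := by
    intro a
    rw [← congrFun hy a]
    simp only [F, map_sum, map_smul, Finset.sum_apply, Pi.smul_apply, smul_eq_mul, Matrix.mulVec,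
      dotProduct, Matrix.of_apply, Finset.sum_mul]
    rw [Finset.sum_comm]
    refine Finset.sum_congr rfl fun a' _ => Finset.sum_congr rfl fun m hm => ?_
    rw [rho0_mon t m (Or.inl (mem_MD.1 hm).le)]
    simp only [vec, Sum.elim_inr, mem_MD.1 hm, if_true]
    ring
  have := Submodule.add_mem _ (h1 (u - rho0 t F) fun a => by simp [h2]) ⟨F, rfl⟩
  simpa using this

/-- translation -/
noncomputable def tr (q : Fin 3 → k) : PS k →ₐ[k] PS k := aeval fun i => X i + C (q i)

lemma tr_surj (q : Fin 3 → k) : Function.Surjective (tr q) := fun F =>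
  ⟨tr (-q) F, by
    have : (tr q).comp (tr (-q)) = AlgHom.id k _ := by ext i : 1; simp [tr]
    exact AlgHom.congr_fun this F⟩

lemma matOf_Phi (t : Par → k) (l : Fin 3) :
    matOf (Phi t) l = Matrix.reindexAlgEquiv k k eI (MM t l) + t (.q l) • 1 := by
  ext a b
  simp [matOf, Phi, Matrix.one_apply]

lemma comm_Phi (t : Par → k) (i j : Fin 3) : Commute (matOf (Phi t) i) (matOf (Phi t) j) := by
  rw [matOf_Phi, matOf_Phi]
  refine Commute.add_left (Commute.add_right ((MM_comm t i j).map _) ?_) ?_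
  · exact (Commute.one_right _).smul_right _
  · exact (Commute.one_left _).smul_left _

lemma act_Phi (t : Par → k) (F : PS k) : act (matOf (Phi t)) (vecOf (Phi t)) F =
    rho0 t (tr (fun i => t (.q i)) F) ∘ eI.symm := by
  refine act_unique (comm_Phi t) (LinearMap.funLeft k k eI.symm ∘ₗ rho0 t ∘ₗ
    (tr fun i => t (.q i)).toLinearMap) ?_ (fun i F => ?_) F
  · simp only [LinearMap.comp_apply, AlgHom.toLinearMap_apply, map_one, rho0, act_one]
    rfl
  · simp only [LinearMap.comp_apply, AlgHom.toLinearMap_apply, map_mul, tr, aeval_X, add_mul,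
      map_add, rho0, act_X_mul (MM_comm t), ← smul_eq_C_mul, map_smul, matOf_Phi,
      Matrix.add_mulVec, Matrix.smul_mulVec, Matrix.one_mulVec]
    refine congrArg₂ _ (funext fun a => ?_) rfl
    simp only [LinearMap.funLeft_apply, Matrix.mulVec, dotProduct, Matrix.coe_reindexAlgEquiv,
      Matrix.reindex_apply, Matrix.submatrix_apply]
    exact (Equiv.sum_comp eI.symm fun j => MM t i (eI.symm a) j * _).symm

lemma stable_Phi (t : Par → k) (h : gdet t ≠ 0) : IsStable (Phi t) := by
  refine ⟨comm_Phi t, fun u => ?_⟩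
  obtain ⟨G, hG⟩ := rho0_surj t h (u ∘ eI)
  obtain ⟨F, rfl⟩ := tr_surj (fun i => t (.q i)) G
  exact ⟨F, by rw [act_Phi, hG]; ext a; simp⟩

lemma mem_idealOf_Phi (t : Par → k) (h : gdet t ≠ 0) (F : PS k) :
    F ∈ idealOf ⟨Phi t, stable_Phi t h⟩ ↔ rho0 t (tr (fun i => t (.q i)) F) = 0 := by
  show act _ _ F = 0 ↔ _
  rw [act_Phi]
  exact ⟨fun h => by ext i; simpa using congrFun h (eI i), fun h => by rw [h]; rfl⟩

lemma finrank_ker_factor {I J : Ideal (PS k)} (h : I ≤ J) [Module.Finite k (PS k ⧸ I)] :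
    Module.finrank k (LinearMap.ker (Ideal.Quotient.factorₐ k h).toLinearMap) +
      Module.finrank k (PS k ⧸ J) = Module.finrank k (PS k ⧸ I) := by
  have := (Ideal.Quotient.factorₐ k h).toLinearMap.finrank_range_add_finrank_ker
  rw [LinearMap.range_eq_top.2 (Ideal.Quotient.factor_surjective h), finrank_top] at this
  omega

lemma VC0_facts {I : Hilb k 96} (hI : I ∈ VC0 k) : idealOfVars (Fin 3) k ^ 8 ≤ I.ideal ∧
    ∃ (n : Fin 12 → PS k ⧸ I.ideal) (Q : Fin 12 → Mon → k), ∀ m, degree m = 7 →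
      Ideal.Quotient.mk I.ideal (monomial m 1) = ∑ a, Q a m • n a := by
  have := I.finite
  have h := hI.2
  have h0 : Module.finrank k (PS k ⧸ (idealOfVars (Fin 3) k ^ 0 ⊔ I.ideal)) = 0 := by
    rw [pow_zero, Ideal.one_eq_top, top_sup_eq]; exact Module.finrank_zero_of_subsingleton
  let c : ℕ → ℕ := fun i => Module.finrank k (PS k ⧸ (idealOfVars (Fin 3) k ^ i ⊔ I.ideal))
  have c0 : c 1 - c 0 = 1 := h 0
  have c1 : c 2 - c 1 = 3 := h 1
  have c2 : c 3 - c 2 = 6 := h 2
  have c3 : c 4 - c 3 = 10 := h 3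
  have c4 : c 5 - c 4 = 15 := h 4
  have c5 : c 6 - c 5 = 21 := h 5
  have c6 : c 7 - c 6 = 28 := h 6
  have c7 : c 8 - c 7 = 12 := h 7
  have e0 : c 0 = 0 := h0
  have e7 : Module.finrank k (PS k ⧸ (idealOfVars (Fin 3) k ^ 7 ⊔ I.ideal)) = 84 := by
    show c 7 = 84
    omega
  have e8 : Module.finrank k (PS k ⧸ (idealOfVars (Fin 3) k ^ 8 ⊔ I.ideal)) = 96 := by
    show c 8 = 96
    omega
  have d7 := finrank_ker_factor (le_sup_right : I.ideal ≤ idealOfVars (Fin 3) k ^ 7 ⊔ I.ideal)
  have d8 := finrank_ker_factor (le_sup_right : I.ideal ≤ idealOfVars (Fin 3) k ^ 8 ⊔ I.ideal)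
  rw [I.colength] at d7 d8
  constructor
  · intro F hF
    have : LinearMap.ker (Ideal.Quotient.factorₐ k
        (le_sup_right : I.ideal ≤ idealOfVars (Fin 3) k ^ 8 ⊔ I.ideal)).toLinearMap = ⊥ :=
      Submodule.finrank_eq_zero.1 (by omega)
    rw [← Ideal.Quotient.eq_zero_iff_mem]
    exact LinearMap.ker_eq_bot'.1 this _ (Ideal.Quotient.eq_zero_iff_mem.2 (Ideal.mem_sup_left hF))
  · let N := LinearMap.ker (Ideal.Quotient.factorₐ k
      (le_sup_right : I.ideal ≤ idealOfVars (Fin 3) k ^ 7 ⊔ I.ideal)).toLinearMap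
    let b := Module.finBasisOfFinrankEq k N (n := 12) (by simp only [N]; omega)
    have hm : ∀ m, degree m = 7 → Ideal.Quotient.mk I.ideal (monomial m 1) ∈ N := fun m hm =>
      Ideal.Quotient.eq_zero_iff_mem.2 (Ideal.mem_sup_left
        ((monomial_mem_pow_idealOfVars_iff 7 m one_ne_zero).2 hm.ge))
    refine ⟨fun a => b a, fun a m => if h : degree m = 7 then b.repr ⟨_, hm m h⟩ a else 0,
      fun m h => ?_⟩
    have := congrArg Subtype.val (b.sum_repr ⟨_, hm m h⟩)
    rw [Submodule.coe_sum] at this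
    simp only [h, dif_pos]
    exact this.symm

lemma exists_f (Q : Fin 12 → Mon → k) : ∃ f : Mon → k, (∃ m ∈ MD 6, f m ≠ 0) ∧
    ∀ a, ∑ m ∈ MD 6, f m * Q a (m + Finsupp.single 0 1) = 0 ∧
      ∑ m ∈ MD 6, f m * Q a (m + Finsupp.single 1 1) = 0 := by
  classical
  let L : (MD 6 → k) →ₗ[k] (Fin 12 ⊕ Fin 12 → k) := Matrix.toLin' (Matrix.of fun s m =>
    Sum.elim (fun a => Q a (m.1 + Finsupp.single 0 1)) (fun a => Q a (m.1 + Finsupp.single 1 1)) s)
  have := LinearMap.ker_ne_bot_of_finrank_lt (f := L) (by simp [card_MD, Nat.choose])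
  obtain ⟨u, hu, hne⟩ := Submodule.exists_mem_ne_zero_of_ne_bot this
  obtain ⟨m, hm⟩ := Function.ne_iff.1 hne
  refine ⟨Function.extend Subtype.val u 0, ⟨m, m.2, by
    rwa [Subtype.val_injective.extend_apply]⟩, fun a => ?_⟩
  have h1 := congrFun (LinearMap.mem_ker.1 hu) (Sum.inl a)
  have h2 := congrFun (LinearMap.mem_ker.1 hu) (Sum.inr a)
  rw [← Finset.sum_coe_sort (MD 6), ← Finset.sum_coe_sort (MD 6)]
  simp only [Subtype.val_injective.extend_apply]
  simp only [L, Matrix.toLin'_apply, Matrix.mulVec, dotProduct, Matrix.of_apply, Sum.elim_inl,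
    Sum.elim_inr, Pi.zero_apply, mul_comm] at h1 h2
  exact ⟨h1, h2⟩

lemma exists_dual {f : Mon → k} (hf : ∃ m ∈ MD 6, f m ≠ 0) {l l' : Fin 3} (hl : l ≠ l') :
    ∃ α : Mon → k, ∑ m ∈ MD 6, f m * α (m + Finsupp.single l 1) = 1 ∧
      ∑ m ∈ MD 6, f m * α (m + Finsupp.single l' 1) = 0 := by
  classical
  obtain ⟨m₀, h1, h2⟩ := ((MD 6).filter fun m => f m ≠ 0).exists_max_image (fun m => m l) (by
    obtain ⟨m, h1, h2⟩ := hf
    exact ⟨m, Finset.mem_filter.2 ⟨h1, h2⟩⟩)
  obtain ⟨h3, h4⟩ := Finset.mem_filter.1 h1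
  refine ⟨Pi.single (m₀ + Finsupp.single l 1) (f m₀)⁻¹, ?_, Finset.sum_eq_zero fun m hm => ?_⟩
  · rw [Finset.sum_eq_single m₀ (fun m _ hm => by simp [hm]) (fun h => (h h3).elim)]
    simp [h4]
  · by_cases h5 : f m = 0
    · simp [h5]
    · have h6 := h2 m (Finset.mem_filter.2 ⟨hm, h5⟩)
      have : m + Finsupp.single l' 1 ≠ m₀ + Finsupp.single l 1 := by
        intro e
        have := DFunLike.congr_fun e l
        simp [hl] at this
        omega
      simp [this]

lemma VC_param {J : Hilb k 96} (hJ : J ∈ VC k) :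
    ∃ (t : Par → k) (h : gdet t ≠ 0), toHilb ⟨Phi t, stable_Phi t h⟩ = J := by
  classical
  obtain ⟨I, hI, q, hq⟩ := hJ
  obtain ⟨h8, n, Q, hQ⟩ := VC0_facts hI
  obtain ⟨f, hf, hfQ⟩ := exists_f Q
  obtain ⟨α, a1, a2⟩ := exists_dual hf (l := 0) (l' := 1) (by decide)
  obtain ⟨β, b1, b2⟩ := exists_dual hf (l := 1) (l' := 0) (by decide)
  let T : (Mon → Fin 12 → k) → Par → k := fun r s => match s with
    | .f m => f m | .al m => α m | .be m => β m | .q0 a m => Q a m | .rr m a => r m a
    | .c => 0 | .q i => q i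
  have hQm : ∀ r a m, Qm (T r) a m = Q a m := fun r a m => by
    simp [Qm, DD, ap, T, a1, a2, b1, b2, (hfQ a).1, (hfQ a).2]
  let θ : (Io → k) →ₗ[k] PS k ⧸ I.ideal := Fintype.linearCombination k
    (Sum.elim (fun b => Ideal.Quotient.mk I.ideal (monomial b.1 1)) n)
  have hθ : ∀ r F, θ (rho0 (T r) F) = Ideal.Quotient.mk I.ideal F := by
    intro r F
    have : θ ∘ₗ rho0 (T r) = (Ideal.Quotient.mkₐ k I.ideal).toLinearMap := by
      refine (basisMonomials (Fin 3) k).ext fun m => ?_
      simp only [LinearMap.comp_apply, coe_basisMonomials, rho0_mon (T r) m (Or.inr rfl),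
        AlgHom.toLinearMap_apply, Ideal.Quotient.mkₐ_eq_mk]
      rcases lt_trichotomy (degree m) 7 with h | h | h
      · rw [vec_low _ (by omega)]; simp [θ]
      · have hb : ∀ b : Bf, b.1 ≠ m := by rintro b rfl; have := mem_Bf.1 b.2; omega
        rw [hQ m h]
        simp [θ, Fintype.linearCombination_apply, vec, hb, h, hQm, T]
      · rw [vec_high _ h, map_zero, eq_comm, Ideal.Quotient.eq_zero_iff_mem]
        exact h8 ((monomial_mem_pow_idealOfVars_iff 8 m one_ne_zero).2 h)
    rw [← LinearMap.comp_apply, this]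
    rfl
  have := I.finite
  have hrk : Module.finrank k (Io → k) = Module.finrank k (PS k ⧸ I.ideal) :=
    (Module.finrank_fintype_fun_eq_card k).trans (card_Io.trans I.colength.symm)
  have hinj : Function.Injective θ :=
    (LinearMap.injective_iff_surjective_of_finrank_eq_finrank hrk).2 fun y => by
        obtain ⟨F, rfl⟩ := Ideal.Quotient.mk_surjective y
        exact ⟨_, hθ 0 F⟩
  choose F hF using fun a => Ideal.Quotient.mk_surjective (n a)
  let r : Mon → Fin 12 → k := fun m a => coeff m (F a)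
  have hg : gdet (T r) ≠ 0 := by
    have : (Matrix.of fun a a' : Fin 12 => ∑ m ∈ MD 7, Qm (T r) a m * T r (.rr m a')) = 1 := by
      ext a a'
      have h1 : rho0 (T r) (F a') = Pi.single (Sum.inr a') 1 := hinj (by rw [hθ, hF]; simp [θ])
      have h2 : ∀ G : PS k, rho0 (T r) G (Sum.inr a) = ∑ m ∈ MD 7, Q a m * coeff m G := by
        intro G
        induction G using MvPolynomial.induction_on' with
        | monomial m c =>
          rw [← mul_one c, ← smul_eq_mul, ← smul_monomial, map_smul,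
            rho0_mon (T r) m (Or.inr rfl)]
          simp [vec, coeff_monomial, mem_MD, hQm, mul_comm]
        | add p q hp hq => simp [hp, hq, mul_add, Finset.sum_add_distrib]
      have h3 := h2 (F a')
      rw [h1] at h3
      simp only [Matrix.of_apply, hQm, T, r, ← h3, Matrix.one_apply, Pi.single_apply,
        Sum.inr.injEq]
    rw [gdet, this]; simp
  refine ⟨T r, hg, ?_⟩
  obtain ⟨J, _, _⟩ := J
  simp only [toHilb, Hilb.mk.injEq]
  simp only at hq
  ext G
  rw [mem_idealOf_Phi _ hg, hq, Ideal.mem_comap, ← Ideal.Quotient.eq_zero_iff_mem, ← hθ r,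
    map_eq_zero_iff θ hinj]
  rfl

/-- the locus where the last coordinate has a single eigenvalue, of order at most 8 -/
def TT (k : Type) [Field k] : Set (Hilb k 96) := {J | ∃ l : k, (X 2 - C l) ^ 8 ∈ J.ideal}

lemma VC_subset : VC k ⊆ TT k := by
  rintro J ⟨I, hI, q, hq⟩
  refine ⟨q 2, ?_⟩
  rw [hq, Ideal.mem_comap]
  refine (VC0_facts hI).1 ?_
  simpa using Ideal.pow_mem_pow (Ideal.subset_span ⟨2, rfl⟩ : X 2 ∈ idealOfVars (Fin 3) k) 8

lemma isClosed_TT [CharZero k] : IsClosed (TT k) := by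
  let _ := zariski k (Idx 96)
  rw [isClosed_coinduced]
  let P : Matrix (Fin 96) (Fin 96) (MvPolynomial (Idx 96) k) :=
    (matOf X 2 - (C (96 : k)⁻¹ * (matOf (X : Idx 96 → MvPolynomial (Idx 96) k) 2).trace) •
      (1 : Matrix (Fin 96) (Fin 96) (MvPolynomial (Idx 96) k))) ^ 8
  have hP : ∀ ω : Idx 96 → k, (eval ω).mapMatrix P =
      (matOf ω 2 - ((96 : k)⁻¹ * (matOf ω 2).trace) • 1) ^ 8 := by
    intro ω
    rw [map_pow]
    congr 1
    ext a b
    simp [matOf, Matrix.trace, Matrix.one_apply, apply_ite (eval ω)]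
  have : toHilb ⁻¹' TT k = Subtype.val ⁻¹' ⋂ a, ⋂ b, {ω : Idx 96 → k | eval ω (P a b) ≠ 0}ᶜ := by
    ext ω
    have e : ∀ l : k, (X 2 - C l) ^ 8 ∈ (toHilb ω).ideal ↔ (matOf ω.1 2 - l • 1) ^ 8 = 0 :=
      fun l => pow_eq_zero_iff_act ω.2.1 ω.2.2 l 8
    simp only [TT, Set.mem_preimage, Set.mem_ofPred_eq, e, Set.mem_iInter, Set.mem_compl_iff,
      not_not]
    constructor
    · rintro ⟨l, hl⟩ a b
      have h1 := (Matrix.isNilpotent_trace_of_isNilpotent ⟨8, hl⟩).eq_zero
      have h2 : (96 : k)⁻¹ * (matOf ω.1 2).trace = l := by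
        simp only [Matrix.trace_sub, Matrix.trace_smul, Matrix.trace_one, Fintype.card_fin,
          smul_eq_mul] at h1
        rw [sub_eq_zero.1 h1]
        push_cast
        field_simp
      have h3 := congrFun (congrFun (hP ω.1) a) b
      rw [h2, hl] at h3
      exact h3
    · intro h
      refine ⟨_, (hP ω.1).symm.trans ?_⟩
      ext a b
      exact h a b
  rw [this]
  exact (isClosed_iInter fun a => isClosed_iInter fun b =>
    (zar_open (P a b)).isClosed_compl).preimage continuous_subtype_val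

lemma exists_special : ∃ (t : Par → k) (h : gdet t ≠ 0), toHilb ⟨Phi t, stable_Phi t h⟩ ∉ TT k := by
  classical
  let z6 : Mon := Finsupp.single 2 6
  have hz : z6 ∈ MD 6 := mem_MD.2 (by simp [z6])
  obtain ⟨Λ⟩ : Nonempty (Fin 12 ↪ ((MD 7 \ Finset.univ.image fun l => z6 + Finsupp.single l 1 :
      Finset Mon))) := Function.Embedding.nonempty_of_card_le (by
    have h1 := Finset.le_card_sdiff (Finset.univ.image fun l => z6 + Finsupp.single l 1) (MD 7)
    have h2 := Finset.card_image_le (s := Finset.univ) (f := fun l => z6 + Finsupp.single l 1)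
    rw [card_MD] at h1
    simp only [Finset.card_univ, Fintype.card_fin, Fintype.card_coe] at h2 ⊢
    norm_num [Nat.choose] at h1
    omega)
  have hΛ : ∀ a l, z6 + Finsupp.single l 1 ≠ (Λ a).1 := fun a l e =>
    (Finset.mem_sdiff.1 (Λ a).2).2 (Finset.mem_image.2 ⟨l, Finset.mem_univ _, e⟩)
  let t : Par → k := fun s => match s with
    | .f m => if m = z6 then 1 else 0
    | .al m => if m = z6 + Finsupp.single 0 1 then 1 else 0
    | .be m => if m = z6 + Finsupp.single 1 1 then 1 else 0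
    | .q0 a m => if m = (Λ a).1 then 1 else 0
    | .rr m a => if m = (Λ a).1 then 1 else 0
    | .c => -1 | .q _ => 0
  have hap : ∀ φ l, ap t φ l = φ (z6 + Finsupp.single l 1) := fun φ l => by simp [ap, t, hz]
  have h01 : (Finsupp.single 0 1 : Mon) ≠ Finsupp.single 1 1 := fun e => by
    simpa using DFunLike.congr_fun e 0
  have hQ : ∀ a m, Qm t a m = if m = (Λ a).1 then 1 else 0 := fun a m => by
    simp [Qm, DD, hap, t, hΛ, h01, h01.symm]
  have hg : gdet t ≠ 0 := by
    have : (Matrix.of fun a a' : Fin 12 => ∑ m ∈ MD 7, Qm t a m * t (.rr m a')) = 1 := by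
      ext a a'
      simp [hQ, t, (Finset.mem_sdiff.1 (Λ a').2).1, Matrix.one_apply, eq_comm]
    rw [gdet, this]; simp
  refine ⟨t, hg, ?_⟩
  rintro ⟨l, hl⟩
  have h1 : rho0 t ((X 2 - C l) ^ 8) = 0 := by
    have := (mem_idealOf_Phi t hg _).1 hl
    simpa [tr, t] using this
  have h2 := (pow_eq_zero_iff_act (MM_comm t) (rho0_surj t hg) l 8).1 h1
  have key : ∀ (μ : k) (i : Io), MM t 2 *ᵥ Pi.single i 1 = μ • (Pi.single i 1 : Io → k) → μ = l := by
    intro μ i h
    have : ∀ n : ℕ, (MM t 2 - l • 1) ^ n *ᵥ Pi.single i 1 =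
        (μ - l) ^ n • (Pi.single i 1 : Io → k) := by
      intro n
      induction n with
      | zero => rw [pow_zero, pow_zero, one_smul, Matrix.one_mulVec]
      | succ n ih =>
        rw [pow_succ', ← Matrix.mulVec_mulVec, ih, Matrix.mulVec_smul, Matrix.sub_mulVec, h,
          Matrix.smul_mulVec, Matrix.one_mulVec, ← sub_smul, smul_smul, pow_succ]
    have h3 := congrFun (this 8) i
    rw [h2] at h3
    exact sub_eq_zero.1 (pow_eq_zero_iff (n := 8) (by norm_num) |>.1 (by simpa using h3.symm))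
  have k0 := key 0 (Sum.inr 0) (by rw [MM_mulVec]; simp)
  have hd : degree z6 ≤ 6 := (mem_MD.1 hz).le
  have k1 := key 1 (Sum.inl ⟨z6, mem_Bf.2 hd⟩) (by
    rw [← vec_low t hd, MM_low t 2 hd, vec_low t hd, one_smul]
    have e7 : z6 + Finsupp.single 2 1 = Finsupp.single 2 7 := by rw [← Finsupp.single_add]
    ext (b | a)
    · have hb : b.1 ≠ Finsupp.single 2 7 := by
        intro e; have := mem_Bf.1 b.2; rw [e] at this; simp at this
      by_cases hb' : b.1 = z6
      · simp [vec, e7, t, Pi.single_apply, Subtype.ext_iff, hb', mem_MD.1 hz]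
      · simp [vec, e7, hb, t, Subtype.ext_iff, hb']
    · simp [vec, hQ, hΛ])
  exact zero_ne_one (k0.trans k1.symm)

theorem main [CharZero k] :
    ∃ Z : Set (Hilb k 96), IsClosed Z ∧ IsIrreducible Z ∧ closure (VC k) ⊂ Z := by
  let _ := zariski k Par
  let _ := zariski k (Idx 96)
  let G : {t : Par → k | gdet t ≠ 0} → Hilb k 96 := fun t => toHilb ⟨Phi t.1, stable_Phi t.1 t.2⟩
  have hΦ : Continuous fun t : Par → k => Phi t :=
    zar_continuous (fun t => Phi t) (Phi X) fun t s => by rw [map_Phi]; simp only [eval_X]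
  have hH : Continuous (toHilb (k := k) (d := 96)) := continuous_coinduced_rng
  have hG : Continuous G := hH.comp ((hΦ.comp continuous_subtype_val).subtype_mk _)
  obtain ⟨t₀, h₀, h₁⟩ := exists_special (k := k)
  have hopen : IsOpen {t : Par → k | gdet t ≠ 0} := by
    convert zar_open (gdet (X : Par → MvPolynomial Par k)) using 3 with t
    rw [map_gdet]; simp
  have := Subtype.irreducibleSpace
    (⟨⟨t₀, h₀⟩, (zar_irred Par).open_subset hopen (Set.subset_univ _)⟩ :
      IsIrreducible {t : Par → k | gdet t ≠ 0})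
  refine ⟨closure (G '' Set.univ), isClosed_closure,
    ((IrreducibleSpace.isIrreducible_univ _).image G hG.continuousOn).closure,
    closure_mono fun J hJ => ?_, fun h => h₁ ?_⟩
  · obtain ⟨t, h, rfl⟩ := VC_param hJ
    exact ⟨⟨t, h⟩, trivial, rfl⟩
  · exact closure_minimal VC_subset isClosed_TT (h (subset_closure ⟨⟨t₀, h₀⟩, trivial, rfl⟩))

end Pool.Agent.Lib.MP_851c4e_ag
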